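import Pool.Agent.H208.SS.Main2

/-!
MP_3a897b_co, Q1 for `m = 2` and every `h` not divisible by 4: the complete list of the finite
abelian groups `G` with `φ_±(G, h) = 2`.
-/

set_option autoImplicit false

namespace Pool.Agent.Results.MP_3a897b_co.TwoNotFour

open Pool.Agent.H208.SS

/-- For `h` not divisible by 4, a finite abelian group `G` has `φ_±(G, h) = 2` if and only if `G`
is cyclic of order `n ≥ 2` with `n ≤ 2 h + 1`, or `n, h` odd and `n ≤ 3 h`, or `n` odd, `h` even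
and `2 n ≤ 5 h`. -/
theorem result : ∀ h : ℕ, ¬ 4 ∣ h → ∀ (G : Type) [AddCommGroup G] [Finite G],
    phi G h = 2 ↔ ∃ n : ℕ, 2 ≤ n ∧
      (n ≤ 2 * h + 1 ∨ (Odd n ∧ Odd h ∧ n ≤ 3 * h) ∨ (Odd n ∧ Even h ∧ 2 * n ≤ 5 * h)) ∧
      Nonempty (G ≃+ ZMod n) :=
  fun h hh G _ _ => classification4 h hh G

end Pool.Agent.Results.MP_3a897b_co.TwoNotFour
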