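import Pool.Agent.H208.SS.Main

/-!
MP_3a897b_co, Q1 for `m = 2` and every odd `h`: the complete list of the finite abelian groups `G`
with `φ_±(G, h) = 2`.
-/

set_option autoImplicit false

namespace Pool.Agent.Results.MP_3a897b_co.TwoOdd

open Pool.Agent.H208.SS

/-- For odd `h`, a finite abelian group `G` has `φ_±(G, h) = 2` if and only if `G` is cyclic of
order `n` with `2 ≤ n ≤ 2 h + 1`, or with `n` odd and `n ≤ 3 h`. -/
theorem result : ∀ h : ℕ, Odd h → ∀ (G : Type) [AddCommGroup G] [Finite G],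
    phi G h = 2 ↔ ∃ n : ℕ, 2 ≤ n ∧ (n ≤ 2 * h + 1 ∨ (Odd n ∧ n ≤ 3 * h)) ∧
      Nonempty (G ≃+ ZMod n) :=
  fun h hh G _ _ => classification h hh G

end Pool.Agent.Results.MP_3a897b_co.TwoOdd
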